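import Mathlib

set_option autoImplicit false

namespace Pool.Agent.H.MP_4cef1b_gt

open Set Filter Topology

open Classical in
noncomputable def emb (P : Type) [PartialOrder P] (t : P) : P → Bool := fun s => decide (s ≤ t)

@[reducible] noncomputable def tp (P : Type) [PartialOrder P] : TopologicalSpace P :=
  TopologicalSpace.induced (emb P) inferInstance

theorem abstract (P : Type) [PartialOrder P]
    (fan : ∀ x : P, ∃ r : ℕ → P, (∀ k, x < r k) ∧
      ∀ s, ¬ s ≤ x → ∀ᶠ k in atTop, ∀ y, r k ≤ y → ¬ s ≤ y)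
    (dist : ∀ D : ℕ → Set P, (∀ n p, ∃ q, p ≤ q ∧ q ∈ D n) →
      (∀ n p q, p ∈ D n → p ≤ q → q ∈ D n) → ∃ t, ∀ n, t ∈ D n)
    (A : ℕ → Set (P × P))
    (hA : ∀ n, ∀ a ∈ A n, ∀ b ∈ A n, ∀ z, a ≤ z → b ≤ z → a = b)
    (hA' : ∀ p : P × P, ∃ n, ∃ a ∈ A n, p ≤ a) :
    ∃ _ : TopologicalSpace P, T35Space P ∧
      (¬ ∃ F : ℕ → Set P, (∀ n, DiscreteTopology ↥(F n)) ∧ Dense (⋃ n, F n)) ∧
      ∀ D : ℕ → Set (P × P), (∀ n, Dense (D n)) →
        ∃ F : ℕ → Set (P × P), (∀ n, F n ⊆ D n ∧ DiscreteTopology ↥(F n)) ∧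
          Dense (⋃ n, F n) := by
  classical
  letI : TopologicalSpace P := tp P
  have hind : IsInducing (emb P) := IsInducing.induced _
  have hemb : IsEmbedding (emb P) := by
    refine ⟨hind, fun a b h => ?_⟩
    have h1 := congrFun h a
    have h2 := congrFun h b
    simp only [emb, le_refl, decide_true] at h1 h2
    exact le_antisymm (by simpa using h1.symm) (by simpa using h2)
  have hop : ∀ t : P, IsOpen (Ici t) := by
    intro t
    have : Ici t = (fun y => emb P y t) ⁻¹' {true} := by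
      ext y; simp [emb]
    rw [this]
    exact (isOpen_discrete _).preimage ((continuous_apply t).comp hind.continuous)
  have hpi : ∀ (x : P) (U : Set P), U ∈ 𝓝 x → ∃ r, x < r ∧ Ici r ⊆ U := by
    intro x U hU
    obtain ⟨r, hr, hs⟩ := fan x
    have hG : (atTop : Filter ℕ).bind (fun k => 𝓟 (Ici (r k))) ≤ 𝓝 x := by
      rw [hind.nhds_eq_comap, ← Filter.map_le_iff_le_comap]
      change Tendsto _ _ _
      rw [tendsto_pi_nhds]
      intro s
      rw [nhds_discrete, tendsto_pure, eventually_bind]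
      by_cases h : s ≤ x
      · refine Eventually.of_forall fun k => ?_
        rw [eventually_principal]
        intro y hy
        have : s ≤ y := h.trans ((hr k).le.trans hy)
        simp [emb, h, this]
      · refine (hs s h).mono fun k hk => ?_
        rw [eventually_principal]
        intro y hy
        simp [emb, h, hk y hy]
    have h2 := hG hU
    rw [mem_bind'] at h2
    obtain ⟨k, hk⟩ := Filter.nonempty_of_mem h2
    exact ⟨r k, hr k, by simpa using hk⟩
  refine ⟨tp P, hemb.t35Space, ?_, ?_⟩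
  · rintro ⟨F, hF, hd⟩
    obtain ⟨t, ht⟩ := dist (fun n => {t | ∀ y, t ≤ y → y ∉ F n}) (by
      intro n p
      by_cases h : ∃ x, p ≤ x ∧ x ∈ F n
      · obtain ⟨x, hpx, hx⟩ := h
        have hiso : IsOpen ({⟨x, hx⟩} : Set ↥(F n)) := isOpen_discrete _
        obtain ⟨U, hU, hUe⟩ := isOpen_induced_iff.1 hiso
        have hxU : x ∈ U := by
          have : (⟨x, hx⟩ : ↥(F n)) ∈ (Subtype.val ⁻¹' U) := by rw [hUe]; rfl
          exact this
        obtain ⟨r, hxr, hrU⟩ := hpi x U (hU.mem_nhds hxU)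
        refine ⟨r, hpx.trans hxr.le, fun y hy hyF => ?_⟩
        have : (⟨y, hyF⟩ : ↥(F n)) ∈ (Subtype.val ⁻¹' U) := hrU hy
        rw [hUe] at this
        have hyx : y = x := congrArg Subtype.val this
        exact absurd (hxr.trans_le hy) (by rw [hyx]; exact lt_irrefl _)
      · exact ⟨p, le_rfl, fun y hy hyF => h ⟨y, hy, hyF⟩⟩)
      (fun n p q hp hpq y hy => hp y (hpq.trans hy))
    obtain ⟨y, hy1, hy2⟩ := hd.inter_open_nonempty (Ici t) (hop t) ⟨t, le_rfl⟩
    obtain ⟨n, hn⟩ := mem_iUnion.1 hy2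
    exact ht n y hy1 hn
  · intro D hD
    have hop2 : ∀ a : P × P, IsOpen (Ici a) := by
      intro a
      rw [← Ici_prod_Ici]
      exact (hop _).prod (hop _)
    have hc : ∀ n (a : P × P), ∃ z, a ≤ z ∧ z ∈ D n := fun n a =>
      (hD n).inter_open_nonempty (Ici a) (hop2 a) ⟨a, le_refl a⟩
    choose c hc1 hc2 using hc
    refine ⟨fun n => c n '' A n, fun n => ⟨?_, ?_⟩, ?_⟩
    · rintro _ ⟨a, -, rfl⟩
      exact hc2 n a
    · rw [← isDiscrete_iff_discreteTopology, isDiscrete_iff_forall_exists_isOpen]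
      rintro _ ⟨a, ha, rfl⟩
      refine ⟨Ici a, hop2 a, ?_⟩
      ext z
      constructor
      · rintro ⟨hz, b, hb, rfl⟩
        rw [hA n a ha b hb _ hz (hc1 n b)]
        rfl
      · rintro rfl
        exact ⟨hc1 n a, a, ha, rfl⟩
    · rw [dense_iff_inter_open]
      rintro U hU ⟨⟨x, y⟩, hxy⟩
      obtain ⟨V, hV, W, hW, hVW⟩ := mem_nhds_prod_iff.1 (hU.mem_nhds hxy)
      obtain ⟨r, -, hr⟩ := hpi x V hV
      obtain ⟨s, -, hs⟩ := hpi y W hW
      obtain ⟨n, a, ha, hle⟩ := hA' (r, s)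
      have h3 := hle.trans (hc1 n a)
      exact ⟨c n a, hVW ⟨hr h3.1, hs h3.2⟩, mem_iUnion.2 ⟨n, a, ha, rfl⟩⟩

end Pool.Agent.H.MP_4cef1b_gt
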