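import Mathlib

set_option autoImplicit false

namespace Pool.Agent.H.MP_4cef1b_gt

open Set Cardinal

inductive LR {X W : Type} (st : X → W → X → Prop) : Ordinal.{0} → X → Prop
  | mk (α : Ordinal.{0}) (x : X) (h : W) (β : X → Ordinal.{0}) :
      (∀ y, st x h y → β y < α) → (∀ y, st x h y → LR st (β y) y) → LR st α x

theorem det {X W : Type} [Nonempty W] (st : X → W → X → Prop) :
    ∃ (G : X → Prop) (σ : X → W), (∀ x h, G x → ∃ y, st x h y ∧ G y) ∧
      ∀ p : ℕ → X, ¬ G (p 0) → ¬ ∀ n, st (p n) (σ (p n)) (p (n + 1)) := by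
  classical
  let rk : X → Ordinal.{0} := fun x => sInf {α | LR st α x}
  have h1 : ∀ x, ∃ h : W, (∃ α, LR st α x) →
      ∀ y, st x h y → (∃ α, LR st α y) ∧ rk y < rk x := by
    intro x
    by_cases hx : ∃ α, LR st α x
    · have hm : LR st (rk x) x := csInf_mem hx
      generalize rk x = a at hm
      cases hm with
      | mk _ _ h β hb hl =>
        exact ⟨h, fun _ y hy => ⟨⟨_, hl y hy⟩, lt_of_le_of_lt (csInf_le' (hl y hy)) (hb y hy)⟩⟩
    · exact ⟨Classical.arbitrary W, fun h => absurd h hx⟩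
  choose σ hσ using h1
  refine ⟨fun x => ¬ ∃ α, LR st α x, σ, ?_, ?_⟩
  · intro x h hx
    by_contra hc
    push Not at hc
    choose! β hβ using hc
    refine hx ⟨Order.succ (⨆ y, β y), LR.mk _ x h β (fun y _ => ?_) hβ⟩
    exact Order.lt_succ_of_le (Ordinal.le_iSup β y)
  · intro p h0 hp
    have h2 : ∀ n, ∃ α, LR st α (p n) := by
      intro n
      induction n with
      | zero => exact not_not.1 h0
      | succ n ih => exact (hσ _ ih _ (hp n)).1
    have h3 : ∀ n, rk (p (n + 1)) < rk (p n) := fun n => (hσ _ (h2 n) _ (hp n)).2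
    obtain ⟨n, hn⟩ := WellFounded.not_rel_apply_succ (r := (· < ·)) (fun n => rk (p n))
    exact hn (h3 n)

theorem game {X W Y : Type} [Preorder W] [Nonempty W]
    (ub : ∀ g : (ℕ → Y) → W, ∃ w, ∀ u, g u ≤ w) (lab : X → Y) (R : ℕ → X → W → X → Prop)
    (anti : ∀ n x h h' y, h' ≤ h → R n x h y → R n x h' y)
    (tot : ∀ n x h, ∃ y, R n x h y) (x0 : X) :
    ∃ (u : ℕ → Y) (G : ℕ → X → Prop), G 0 x0 ∧
      ∀ n x h, G n x → ∃ y, R n x h y ∧ lab y = u n ∧ G (n + 1) y := by
  classical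
  have hd := fun u : ℕ → Y => det (X := ℕ × X) (W := W)
    (fun a h b => b.1 = a.1 + 1 ∧ R a.1 a.2 h b.2 ∧ lab b.2 = u a.1)
  choose G σ hG hσ using hd
  by_cases h : ∃ u, G u (0, x0)
  · obtain ⟨u, hu⟩ := h
    refine ⟨u, fun n x => G u (n, x), hu, fun n x h hx => ?_⟩
    obtain ⟨⟨m, y⟩, ⟨h1, h2, h3⟩, h4⟩ := hG u (n, x) h hx
    simp only at h1 h2 h3
    subst h1
    exact ⟨y, h2, h3, h4⟩
  · exfalso
    push Not at h
    have h1 : ∀ n x, ∃ y, ∀ u, R n x (σ u (n, x)) y := by
      intro n x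
      obtain ⟨w, hw⟩ := ub (fun u => σ u (n, x))
      obtain ⟨y, hy⟩ := tot n x w
      exact ⟨y, fun u => anti _ _ _ _ _ (hw u) hy⟩
    choose nx hnx using h1
    let s : ℕ → X := fun n => Nat.rec x0 (fun m x => nx m x) n
    exact hσ (fun n => lab (s (n + 1))) (fun n => (n, s n)) (h _)
      (fun n => ⟨rfl, hnx n (s n) _, rfl⟩)

def Good {W : Type} [LinearOrder W] (F : List W → W) (δ : W) : Prop :=
  (∀ l : List W, (∀ x ∈ l, x < δ) → F l < δ) ∧
    ∃ α : ℕ → W, (∀ n, α n < δ) ∧ ∀ b < δ, ∃ n, b ≤ α n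

theorem colour (Λ Y : Type) [Infinite Λ] [Nonempty Y] (hY : #Y ≤ #Λ) :
    ∃ (W : Type) (_ : LinearOrder W) (_ : WellFoundedLT W), Nonempty W ∧
      (∀ g : Λ → W, ∃ w, ∀ u, g u < w) ∧
      ∃ col : W → Y, ∀ (y : Y) (F : List W → W), ∃ δ, col δ = y ∧ Good F δ := by
  classical
  let κ := Order.succ #Λ
  have hinf : ℵ₀ ≤ #Λ := aleph0_le_mk Λ
  have hreg : κ.IsRegular := isRegular_succ hinf
  let W := κ.ord.ToType
  have hW : #W = κ := mk_ord_toType κ
  have hIio : ∀ a : W, #(Iio a) ≤ #Λ := by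
    intro a
    have := mk_Iio_lt a (by rw [hW]; simp [W])
    rw [hW] at this
    exact Order.lt_succ_iff.1 this
  have hIic : ∀ a : W, #(Iic a) ≤ #Λ := by
    intro a
    rw [← Iio_insert]
    refine (mk_insert_le).trans ?_
    exact (add_le_add (hIio a) (one_le_aleph0.trans hinf)).trans (add_eq_self hinf).le
  have ub : ∀ (ι : Type) (g : ι → W), #ι ≤ #Λ → ∃ w, ∀ i, g i < w := by
    intro ι g hι
    by_contra hc
    push Not at hc
    have h1 : (univ : Set W) = ⋃ i, Iic (g i) := by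
      ext w
      simp only [mem_univ, mem_iUnion, mem_Iic, true_iff]
      exact hc w
    have h2 : #(univ : Set W) ≤ #Λ := by
      rw [h1]
      refine (mk_iUnion_le_sum_mk).trans ?_
      refine (sum_le_sum _ (fun _ => #Λ) (fun i => hIic (g i))).trans ?_
      rw [sum_const']
      exact (mul_le_mul' hι le_rfl).trans (mul_eq_self hinf).le
    rw [mk_univ, hW] at h2
    exact absurd h2 (not_le.2 (Order.lt_succ _))
  have hne : Nonempty W := by
    rw [← mk_ne_zero_iff, hW]
    exact hreg.pos.ne'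
  -- closure points above a given element
  have st0 : ∀ (a : W) (F : List W → W), ∃ δ, a < δ ∧ Good F δ := by
    intro a F
    have h1 : ∀ x : W, ∃ w, x < w ∧ ∀ l : List W, (∀ z ∈ l, z ≤ x) → F l < w := by
      intro x
      obtain ⟨w, hw⟩ := ub (List (Iic x)) (fun l => max x (F (l.map Subtype.val)))
        ((mk_list_le_max _).trans (max_le hinf (hIic x)))
      refine ⟨w, (le_max_left _ _).trans_lt (hw []), fun l hl => ?_⟩
      have := hw (l.pmap (fun z hz => (⟨z, hz⟩ : Iic x)) hl)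
      simp only [List.map_pmap, List.pmap_eq_map, List.map_id'] at this
      exact (le_max_right _ _).trans_lt this
    choose nx hn1 hn2 using h1
    let α : ℕ → W := fun n => nx^[n] a
    have hα : ∀ n, α (n + 1) = nx (α n) := fun n => Function.iterate_succ_apply' _ _ _
    have hmono : StrictMono α := strictMono_nat_of_lt_succ fun n => by rw [hα]; exact hn1 _
    obtain ⟨w, hw⟩ := ub ℕ α (by simpa using hinf)
    let S : Set W := {w | ∀ n, α n < w}
    have hS : S.Nonempty := ⟨w, hw⟩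
    let δ := wellFounded_lt.min S hS
    have hδ : ∀ n, α n < δ := wellFounded_lt.min_mem S hS
    have hc : ∀ b < δ, ∃ n, b ≤ α n := by
      intro b hb
      by_contra h
      push Not at h
      exact wellFounded_lt.not_lt_min S h hb
    refine ⟨δ, hδ 0, fun l hl => ?_, α, hδ, hc⟩
    have : ∃ n, ∀ z ∈ l, z ≤ α n := by
      clear hn2
      induction l with
      | nil => exact ⟨0, by simp⟩
      | cons z l ih =>
        obtain ⟨n, hn⟩ := ih (fun x hx => hl x (List.mem_cons_of_mem _ hx))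
        obtain ⟨m, hm⟩ := hc z (hl z List.mem_cons_self)
        refine ⟨max n m, fun x hx => ?_⟩
        rcases List.mem_cons.1 hx with rfl | hx
        · exact hm.trans (hmono.monotone (le_max_right _ _))
        · exact (hn x hx).trans (hmono.monotone (le_max_left _ _))
    obtain ⟨n, hn⟩ := this
    exact (hn2 _ l hn).trans (by rw [← hα]; exact hδ _)
  have he : ∀ δ : W, ∃ e : W → Λ, InjOn e (Iio δ) := by
    intro δ
    obtain ⟨e⟩ := (Cardinal.le_def _ _).1 (hIio δ)
    refine ⟨fun b => if h : b < δ then e ⟨b, h⟩ else Classical.arbitrary Λ, ?_⟩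
    intro b hb c hc h
    have hb' : b < δ := hb
    have hc' : c < δ := hc
    simp only [hb', hc', dif_pos] at h
    exact congrArg Subtype.val (e.injective h)
  choose e he using he
  have h2 : ∀ a : W, ∃ ξ : Λ, ∀ F : List W → W, ∃ δ, a < δ ∧ e δ a = ξ ∧ Good F δ := by
    intro a
    by_contra hc
    push Not at hc
    choose F hF using hc
    have h3 : ∀ l : List W, ∃ w, ∀ ξ, F ξ l < w := fun l => ub Λ (fun ξ => F ξ l) le_rfl
    choose G hG using h3
    obtain ⟨δ, hδ, hg1, hg2⟩ := st0 a G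
    exact hF (e δ a) δ hδ rfl ⟨fun l hl => (hG l _).trans (hg1 l hl), hg2⟩
  choose ξ hξ using h2
  obtain ⟨x, hx⟩ := infinite_pigeonhole_card ξ κ hW.ge hreg.aleph0_le
    (by rw [hreg.cof_ord]; exact Order.lt_succ _)
  obtain ⟨j⟩ := (Cardinal.le_def _ _).1 ((hY.trans (Order.le_succ _)).trans hx)
  refine ⟨W, inferInstance, inferInstance, hne, fun g => ub Λ g le_rfl,
    fun δ => if h : ∃ y, (j y).1 < δ ∧ e δ (j y).1 = x then h.choose else Classical.arbitrary Y,
    fun y F => ?_⟩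
  obtain ⟨δ, h1, h2, h3⟩ := hξ (j y).1 F
  have h4 : ξ (j y).1 = x := (j y).2
  have h5 : ∃ y, (j y).1 < δ ∧ e δ (j y).1 = x := ⟨y, h1, h2.trans h4⟩
  refine ⟨δ, ?_, h3⟩
  simp only [dif_pos h5]
  apply j.injective
  apply Subtype.ext
  exact he δ h5.choose_spec.1 h1 (h5.choose_spec.2.trans (h2.trans h4).symm)

end Pool.Agent.H.MP_4cef1b_gt
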