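import Mathlib
import Pool.Agent.H.MP_4cef1b_gt.A
import Pool.Agent.H.MP_4cef1b_gt.B

set_option autoImplicit false

namespace Pool.Agent.H.MP_4cef1b_gt

open Set Filter Cardinal

abbrev L : Type := ℝ × Bool

variable {W : Type} [LinearOrder W]

def LimPt (f : W → Option L) (δ : W) : Prop :=
  (∃ b, b < δ) ∧ ∀ b < δ, ∃ c, b < c ∧ c < δ ∧ f c ≠ none

def labs (f : W → Option L) (δ : W) : Set L := {l | ∃ b < δ, f b = some l}

def lab (f : W → Option L) : Set L := {l | ∃ b, f b = some l}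

structure Cond (col : W → Set L) where
  a : W
  f : W → Option L
  top : ∀ b, a < b → f b = none
  cnt : (lab f).Countable
  con : ∀ ξ : ℝ, (ξ, true) ∈ lab f → (ξ, false) ∉ lab f
  lim : ∀ δ, LimPt f δ → col δ = labs f δ

variable {col : W → Set L}

theorem Cond.ext' {p q : Cond col} (h1 : p.a = q.a) (h2 : p.f = q.f) : p = q := by
  cases p; cases q; simp_all

instance : PartialOrder (Cond col) where
  le p q := p.a ≤ q.a ∧ ∀ b ≤ p.a, q.f b = p.f b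
  le_refl p := ⟨le_rfl, fun _ _ => rfl⟩
  le_trans p q r h1 h2 := ⟨h1.1.trans h2.1, fun b hb => (h2.2 b (hb.trans h1.1)).trans (h1.2 b hb)⟩
  le_antisymm p q h1 h2 := by
    have h := le_antisymm h1.1 h2.1
    refine Cond.ext' h (funext fun b => ?_)
    rcases le_or_gt b p.a with hb | hb
    · exact (h1.2 b hb).symm
    · rw [p.top b hb, q.top b (h ▸ hb)]

theorem le_def {p q : Cond col} : p ≤ q ↔ p.a ≤ q.a ∧ ∀ b ≤ p.a, q.f b = p.f b := Iff.rfl

theorem lim_congr {f g : W → Option L} {δ : W} (h : ∀ b < δ, f b = g b) (hf : LimPt f δ) :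
    LimPt g δ := by
  refine ⟨hf.1, fun b hb => ?_⟩
  obtain ⟨c, h1, h2, h3⟩ := hf.2 b hb
  exact ⟨c, h1, h2, h c h2 ▸ h3⟩

theorem labs_congr {f g : W → Option L} {δ : W} (h : ∀ b < δ, f b = g b) :
    labs f δ = labs g δ := by
  ext l
  constructor
  · rintro ⟨b, hb, h1⟩
    exact ⟨b, hb, h b hb ▸ h1⟩
  · rintro ⟨b, hb, h1⟩
    exact ⟨b, hb, (h b hb).symm ▸ h1⟩

theorem lim_le {f : W → Option L} {a δ : W} (h : ∀ b, a < b → f b = none) (hf : LimPt f δ) :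
    δ ≤ a := by
  by_contra hc
  obtain ⟨c, h1, -, h3⟩ := hf.2 a (not_le.1 hc)
  exact h3 (h c h1)

theorem stretch (p : Cond col) (a' : W) (h : p.a ≤ a') : ∃ q : Cond col, p ≤ q ∧ q.a = a' :=
  ⟨⟨a', p.f, fun b hb => p.top b (h.trans_lt hb), p.cnt, p.con, p.lim⟩, ⟨h, fun _ _ => rfl⟩, rfl⟩

theorem extend (p : Cond col) (a' : W) (h : p.a < a') (ξ : ℝ) (t : Bool)
    (hξ : ∀ t, (ξ, t) ∉ lab p.f) : ∃ q : Cond col, p ≤ q ∧ q.a = a' ∧ q.f a' = some (ξ, t) := by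
  classical
  have h1 : ∀ l, l ∈ lab (Function.update p.f a' (some (ξ, t))) → l = (ξ, t) ∨ l ∈ lab p.f := by
    rintro l ⟨b, hb⟩
    by_cases hba : b = a'
    · subst hba
      simp only [Function.update_self, Option.some.injEq] at hb
      exact Or.inl hb.symm
    · rw [Function.update_of_ne hba] at hb
      exact Or.inr ⟨b, hb⟩
  have h2 : ∀ b, a' < b → Function.update p.f a' (some (ξ, t)) b = none := by
    intro b hb
    rw [Function.update_of_ne hb.ne']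
    exact p.top b (h.trans hb)
  refine ⟨⟨a', Function.update p.f a' (some (ξ, t)), h2, ?_, ?_, ?_⟩, ⟨h.le, fun b hb => ?_⟩,
    rfl, by simp⟩
  · exact (p.cnt.insert (ξ, t)).mono h1
  · intro η h3 h4
    rcases h1 _ h3 with h5 | h5 <;> rcases h1 _ h4 with h6 | h6
    · simpa using h5.trans h6.symm
    · rw [(Prod.mk.inj h5).1] at h6
      exact hξ _ h6
    · rw [(Prod.mk.inj h6).1] at h5
      exact hξ _ h5
    · exact p.con η h5 h6
  · intro δ hδ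
    have h3 := lim_le h2 hδ
    have h4 : ∀ b < δ, Function.update p.f a' (some (ξ, t)) b = p.f b := fun b hb =>
      Function.update_of_ne (hb.trans_le h3).ne _ _
    rw [labs_congr h4]
    exact p.lim δ (lim_congr h4 hδ)
  · exact Function.update_of_ne (hb.trans_lt h).ne _ _

theorem fresh (S : Set L) (hS : S.Countable) :
    ∃ ξ : ℕ → ℝ, Function.Injective ξ ∧ ∀ k t, (ξ k, t) ∉ S := by
  have h1 : (Prod.fst '' S)ᶜ.Infinite := by
    intro h
    have h2 := (hS.image Prod.fst).union h.countable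
    rw [union_compl_self] at h2
    exact not_countable_univ h2
  refine ⟨fun k => (h1.natEmbedding _ k).1,
    Subtype.val_injective.comp (h1.natEmbedding _).injective, fun k t hk => ?_⟩
  exact (h1.natEmbedding _ k).2 ⟨_, hk, rfl⟩

theorem limit (s : ℕ → Cond col) (hs : ∀ n, s n ≤ s (n + 1)) (δ : W) (h1 : ∀ n, (s n).a < δ)
    (h2 : ∀ b < δ, ∃ n, b ≤ (s n).a) (h3 : col δ = ⋃ n, lab (s (n + 1)).f) :
    ∃ t : Cond col, ∀ n, s n ≤ t := by
  classical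
  have hm : Monotone s := monotone_nat_of_le_succ hs
  let N : W → ℕ := fun b => if h : ∃ n, b ≤ (s n).a then Nat.find h else 0
  let f : W → Option L := fun b => (s (N b)).f b
  have e1 : ∀ n b, b ≤ (s n).a → f b = (s n).f b := by
    intro n b hb
    have h : ∃ n, b ≤ (s n).a := ⟨n, hb⟩
    have h4 : N b = Nat.find h := dif_pos h
    have h5 : N b ≤ n := h4 ▸ Nat.find_min' h hb
    have h6 : b ≤ (s (N b)).a := h4 ▸ Nat.find_spec h
    exact ((hm h5).2 b h6).symm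
  have e2 : ∀ b, δ ≤ b → f b = none := fun b hb => (s _).top b ((h1 _).trans_le hb)
  have e3 : ∀ n l, l ∈ lab (s n).f → ∃ b ≤ (s n).a, (s n).f b = some l := by
    rintro n l ⟨b, hb⟩
    refine ⟨b, not_lt.1 fun h => ?_, hb⟩
    rw [(s n).top b h] at hb
    cases hb
  have e4 : ∀ n m, n ≤ m → lab (s n).f ⊆ lab (s m).f := by
    intro n m h l hl
    obtain ⟨b, hb, hl⟩ := e3 n l hl
    exact ⟨b, ((hm h).2 b hb).trans hl⟩
  have e5 : ∀ l, l ∈ lab f → ∃ n, l ∈ lab (s n).f := by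
    rintro l ⟨b, hb⟩
    exact ⟨_, b, hb⟩
  refine ⟨⟨δ, f, fun b hb => e2 b hb.le, ?_, ?_, ?_⟩,
    fun n => ⟨(h1 n).le, fun b hb => e1 n b hb⟩⟩
  · refine (countable_iUnion fun n => (s n).cnt).mono fun l hl => ?_
    exact mem_iUnion.2 (e5 l hl)
  · intro ξ h4 h5
    obtain ⟨n, hn⟩ := e5 _ h4
    obtain ⟨m, hm⟩ := e5 _ h5
    exact (s (max n m)).con ξ (e4 _ _ (le_max_left _ _) hn) (e4 _ _ (le_max_right _ _) hm)
  · intro γ hγ
    rcases (lim_le (fun b hb => e2 b hb.le) hγ).lt_or_eq with h | rfl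
    · obtain ⟨n, hn⟩ := h2 γ h
      have h4 : ∀ b < γ, f b = (s n).f b := fun b hb => e1 n b (hb.le.trans hn)
      rw [labs_congr h4]
      exact (s n).lim γ (lim_congr h4 hγ)
    · rw [h3]
      ext l
      constructor
      · intro hl
        obtain ⟨n, hn⟩ := mem_iUnion.1 hl
        obtain ⟨b, hb, hl⟩ := e3 _ l hn
        exact ⟨b, hb.trans_lt (h1 _), (e1 _ b hb).trans hl⟩
      · rintro ⟨b, -, hb⟩
        obtain ⟨n, hn⟩ := e5 l ⟨b, hb⟩
        exact mem_iUnion.2 ⟨n, e4 _ _ (Nat.le_succ n) hn⟩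

theorem distrib [Nonempty W] (ub : ∀ g : (ℕ → Set L) → W, ∃ w, ∀ u, g u < w)
    (hcol : ∀ (y : Set L) (F : List W → W), ∃ δ, col δ = y ∧ Good F δ)
    (D : ℕ → Set (Cond col)) (hD : ∀ n p, ∃ q, p ≤ q ∧ q ∈ D n)
    (hD' : ∀ n p q, p ∈ D n → p ≤ q → q ∈ D n) : ∃ t, ∀ n, t ∈ D n := by
  let x0 : Cond col := ⟨Classical.arbitrary W, fun _ => none, fun _ _ => rfl,
    by simp [lab], by simp [lab], fun δ hδ => by
      obtain ⟨b, hb⟩ := hδ.1
      obtain ⟨c, -, -, hc⟩ := hδ.2 b hb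
      exact absurd rfl hc⟩
  obtain ⟨u, G, h0, hG⟩ := game (X := Cond col) (W := W) (Y := Set L)
    (fun g => (ub g).imp fun w hw u => (hw u).le) (fun p => lab p.f)
    (fun n x h y => x ≤ y ∧ y ∈ D n ∧ h ≤ y.a)
    (fun n x h h' y hh hy => ⟨hy.1, hy.2.1, hh.trans hy.2.2⟩)
    (fun n x h => by
      obtain ⟨q, hq, hqa⟩ := stretch x (max x.a h) (le_max_left _ _)
      obtain ⟨r, hr, hrD⟩ := hD n q
      exact ⟨r, hq.trans hr, hrD, (le_max_right _ _).trans (hqa ▸ hr.1)⟩) x0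
  haveI : Nonempty (Cond col) := ⟨x0⟩
  choose! σ hσ using hG
  let pos : List W → Cond col := fun l => List.rec x0 (fun h l' x => σ l'.length x h) l
  have hpos : ∀ l, G l.length (pos l) := by
    intro l
    induction l with
    | nil => exact h0
    | cons h l ih => exact (hσ _ _ h ih).2.2
  obtain ⟨δ, hδ, hcl, α, hα, hα'⟩ := hcol (⋃ n, u n) (fun l => (pos l).a)
  let l : ℕ → List W := fun n => Nat.rec [] (fun m l' => α m :: l') n
  have hlen : ∀ n, (l n).length = n := by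
    intro n
    induction n with
    | zero => rfl
    | succ n ih => exact congrArg (· + 1) ih
  have hl : ∀ n, ∀ x ∈ l n, x < δ := by
    intro n
    induction n with
    | zero => intro x hx; cases hx
    | succ n ih =>
      intro x hx
      rcases List.mem_cons.1 hx with rfl | hx
      · exact hα n
      · exact ih x hx
  have key : ∀ n, (pos (l n) ≤ pos (l (n + 1)) ∧ pos (l (n + 1)) ∈ D n ∧
      α n ≤ (pos (l (n + 1))).a) ∧ lab (pos (l (n + 1))).f = u n := by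
    intro n
    have h1 := hσ _ _ (α n) (hpos (l n))
    have h2 : pos (l (n + 1)) = σ (l n).length (pos (l n)) (α n) := rfl
    rw [h2]
    rw [hlen] at h1 ⊢
    exact ⟨h1.1, h1.2.1⟩
  obtain ⟨t, ht⟩ := limit (fun n => pos (l n)) (fun n => (key n).1.1) δ
    (fun n => hcl _ (hl n))
    (fun b hb => by
      obtain ⟨n, hn⟩ := hα' b hb
      exact ⟨n + 1, hn.trans (key n).1.2.2⟩)
    (by rw [hδ]; exact iUnion_congr fun n => (key n).2.symm)
  exact ⟨t, fun n => hD' n _ _ (key n).1.2.1 (ht (n + 1))⟩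

theorem exists_succ [WellFoundedLT W] [NoMaxOrder W] (a : W) :
    ∃ a', a < a' ∧ ∀ b, a < b → a' ≤ b := by
  have h : (Ioi a).Nonempty := exists_gt a
  exact ⟨wellFounded_lt.min _ h, wellFounded_lt.min_mem _ h,
    fun b hb => not_lt.1 (wellFounded_lt.not_lt_min _ hb)⟩

theorem fan [WellFoundedLT W] [NoMaxOrder W] (x : Cond col) :
    ∃ r : ℕ → Cond col, (∀ k, x < r k) ∧
      ∀ s, ¬ s ≤ x → ∀ᶠ k in atTop, ∀ y, r k ≤ y → ¬ s ≤ y := by
  obtain ⟨a', ha, ha'⟩ := exists_succ x.a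
  obtain ⟨ξ, hξ, hξ'⟩ := fresh _ x.cnt
  choose r hr1 hr2 hr3 using fun k => extend x a' ha (ξ k) true (hξ' k)
  refine ⟨r, fun k => lt_of_le_of_ne (hr1 k) fun h => ?_, fun s hs => ?_⟩
  · have := hr2 k
    rw [← h] at this
    exact ha.ne this
  · have key : ∀ k y, r k ≤ y → s ≤ y → s.f a' = some (ξ k, true) := by
      intro k y h1 h2
      have h3 : a' ≤ s.a := by
        refine ha' _ (not_le.1 fun h => hs ⟨h, fun b hb => ?_⟩)
        rw [← h2.2 b hb, (hr1 k |>.trans h1).2 b (hb.trans h)]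
      rw [← h2.2 a' h3, h1.2 a' (hr2 k).ge, hr3]
    rw [← Nat.cofinite_eq_atTop, eventually_cofinite]
    refine Set.Subsingleton.finite fun k hk m hm => ?_
    simp only [mem_setOf_eq, not_forall, not_not] at hk hm
    obtain ⟨y, h1, h2⟩ := hk
    obtain ⟨z, h3, h4⟩ := hm
    have := (key k y h1 h2).symm.trans (key m z h3 h4)
    simp only [Option.some.injEq, Prod.mk.injEq, and_true] at this
    exact hξ this

def Alt (f g : W → Option L) : ℕ → W → Prop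
  | 0, a => ∃ ξ b c, b ≤ a ∧ c ≤ a ∧ f b = some (ξ, true) ∧ g c = some (ξ, false)
  | n + 1, a => ∃ a0, Alt f g n a0 ∧ (∃ b, a0 < b ∧ b ≤ a ∧ f b ≠ none) ∧
      ∃ c, a0 < c ∧ c ≤ a ∧ g c ≠ none

theorem alt_mono {f g f' g' : W → Option L} (n : ℕ) {a a' : W} (h : a ≤ a')
    (hf : ∀ b ≤ a, f' b = f b) (hg : ∀ b ≤ a, g' b = g b) (H : Alt f g n a) : Alt f' g' n a' := by
  induction n generalizing a a' with
  | zero =>
    obtain ⟨ξ, b, c, h1, h2, h3, h4⟩ := H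
    exact ⟨ξ, b, c, h1.trans h, h2.trans h, (hf b h1).trans h3, (hg c h2).trans h4⟩
  | succ n ih =>
    obtain ⟨a0, h0, ⟨b, h1, h2, h3⟩, c, h4, h5, h6⟩ := H
    have h7 : a0 ≤ a := h1.le.trans h2
    exact ⟨a0, ih le_rfl (fun b hb => hf b (hb.trans h7)) (fun b hb => hg b (hb.trans h7)) h0,
      ⟨b, h1, h2.trans h, (hf b h2).symm ▸ h3⟩, c, h4, h5.trans h, (hg c h5).symm ▸ h6⟩

theorem alt_fin [WellFoundedLT W] (p q : Cond col) (a : W) : ∃ n, ¬ Alt p.f q.f n a := by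
  by_contra hc
  push Not at hc
  have h1 : ∀ n, ∃ m, m ≤ a ∧ Alt p.f q.f n m ∧ ∀ b, Alt p.f q.f n b → m ≤ b := by
    intro n
    have h : {b | Alt p.f q.f n b}.Nonempty := ⟨a, hc n⟩
    have h2 : ∀ b, Alt p.f q.f n b → wellFounded_lt.min _ h ≤ b :=
      fun b hb => not_lt.1 (wellFounded_lt.not_lt_min _ hb)
    exact ⟨wellFounded_lt.min _ h, h2 a (hc n), wellFounded_lt.min_mem _ h, h2⟩
  choose m hm1 hm2 hm3 using h1
  have h2 : ∀ n, (∃ b, m n < b ∧ b ≤ m (n + 1) ∧ p.f b ≠ none) ∧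
      ∃ c, m n < c ∧ c ≤ m (n + 1) ∧ q.f c ≠ none := by
    intro n
    obtain ⟨a0, h0, ⟨b, h1, h2, h3⟩, c, h4, h5, h6⟩ := hm2 (n + 1)
    exact ⟨⟨b, (hm3 n a0 h0).trans_lt h1, h2, h3⟩, c, (hm3 n a0 h0).trans_lt h4, h5, h6⟩
  have h3 : ∀ n, m n < m (n + 1) := fun n => by
    obtain ⟨b, h1, h2, -⟩ := (h2 n).1
    exact h1.trans_le h2
  have h4 : {w | ∀ n, m n < w}.Nonempty := ⟨a, fun n => (h3 n).trans_le (hm1 _)⟩
  let δ := wellFounded_lt.min _ h4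
  have hδ : ∀ n, m n < δ := wellFounded_lt.min_mem _ h4
  have hδ' : ∀ b < δ, ∃ n, b ≤ m n := by
    intro b hb
    by_contra h
    push Not at h
    exact wellFounded_lt.not_lt_min {w | ∀ n, m n < w} h hb
  have l1 : LimPt p.f δ := ⟨⟨_, hδ 0⟩, fun b hb => by
    obtain ⟨n, hn⟩ := hδ' b hb
    obtain ⟨c, h1, h2, h3⟩ := (h2 n).1
    exact ⟨c, hn.trans_lt h1, h2.trans_lt (hδ _), h3⟩⟩
  have l2 : LimPt q.f δ := ⟨⟨_, hδ 0⟩, fun b hb => by
    obtain ⟨n, hn⟩ := hδ' b hb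
    obtain ⟨c, h1, h2, h3⟩ := (h2 n).2
    exact ⟨c, hn.trans_lt h1, h2.trans_lt (hδ _), h3⟩⟩
  obtain ⟨ξ, b, c, h5, h6, h7, h8⟩ := hm2 0
  have h9 : (ξ, false) ∈ labs q.f δ := ⟨c, h6.trans_lt (hδ 0), h8⟩
  rw [← q.lim δ l2, p.lim δ l1] at h9
  obtain ⟨d, -, hd⟩ := h9
  exact p.con ξ ⟨b, h7⟩ ⟨d, hd⟩

def AA (col : W → Set L) (n : ℕ) : Set (Cond col × Cond col) :=
  {x | x.1.a = x.2.a ∧ Alt x.1.f x.2.f n x.1.a ∧ ∀ b < x.1.a, ¬ Alt x.1.f x.2.f n b}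

theorem AA_anti (n : ℕ) (x : Cond col × Cond col) (hx : x ∈ AA col n) (y : Cond col × Cond col)
    (hy : y ∈ AA col n) (z : Cond col × Cond col) (h1 : x ≤ z) (h2 : y ≤ z) : x = y := by
  have key : ∀ x ∈ AA col n, ∀ y ∈ AA col n, x ≤ z → y ≤ z → x.1.a ≤ y.1.a := by
    intro x hx y hy h1 h2
    by_contra hc
    have hc' := not_le.1 hc
    refine hx.2.2 _ hc' (alt_mono n le_rfl (fun b hb => ?_) (fun b hb => ?_) hy.2.1)
    · rw [← h1.1.2 b (hb.trans hc'.le), h2.1.2 b hb]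
    · rw [← h1.2.2 b (hx.1 ▸ hb.trans hc'.le), h2.2.2 b (hy.1 ▸ hb)]
  have h3 := le_antisymm (key x hx y hy h1 h2) (key y hy x hx h2 h1)
  have aux : ∀ p q r : Cond col, p ≤ r → q ≤ r → p.a = q.a → p = q := by
    intro p q r h1 h2 h
    exact le_antisymm (le_def.2 ⟨h.le, fun b hb => by rw [← h2.2 b (h ▸ hb), h1.2 b hb]⟩)
      (le_def.2 ⟨h.ge, fun b hb => by rw [← h1.2 b (h ▸ hb), h2.2 b hb]⟩)
  exact Prod.ext (aux _ _ _ h1.1 h2.1 h3) (aux _ _ _ h1.2 h2.2 (hx.1 ▸ hy.1 ▸ h3))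

theorem AA_dense [WellFoundedLT W] [NoMaxOrder W] (x : Cond col × Cond col) :
    ∃ n, ∃ y ∈ AA col n, x ≤ y := by
  classical
  have step : ∀ (p q : Cond col) (a' : W), p.a < a' → q.a < a' → ∃ (p' q' : Cond col) (ξ : ℝ),
      p ≤ p' ∧ q ≤ q' ∧ p'.a = a' ∧ q'.a = a' ∧ p'.f a' = some (ξ, true) ∧
        q'.f a' = some (ξ, false) := by
    intro p q a' hp hq
    obtain ⟨ξ, -, hξ⟩ := fresh _ (p.cnt.union q.cnt)
    obtain ⟨p', h1, h2, h3⟩ := extend p a' hp (ξ 0) true (fun t h => hξ 0 t (Or.inl h))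
    obtain ⟨q', h4, h5, h6⟩ := extend q a' hq (ξ 0) false (fun t h => hξ 0 t (Or.inr h))
    exact ⟨p', q', ξ 0, h1, h4, h2, h5, h3, h6⟩
  obtain ⟨a1, ha1⟩ := exists_gt (max x.1.a x.2.a)
  obtain ⟨p1, q1, ξ, h1, h2, h3, h4, h5, h6⟩ := step x.1 x.2 a1
    ((le_max_left _ _).trans_lt ha1) ((le_max_right _ _).trans_lt ha1)
  have h0 : Alt p1.f q1.f 0 a1 := ⟨ξ, a1, a1, le_rfl, le_rfl, h5, h6⟩
  have hex := alt_fin p1 q1 a1
  obtain ⟨n, hn, hn'⟩ : ∃ n, Alt p1.f q1.f n a1 ∧ ¬ Alt p1.f q1.f (n + 1) a1 := by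
    by_contra hc
    push Not at hc
    obtain ⟨n, hn⟩ := hex
    exact hn (Nat.rec h0 hc n)
  obtain ⟨a2, ha2, ha2'⟩ := exists_succ a1
  obtain ⟨p2, q2, η, k1, k2, k3, k4, k5, k6⟩ := step p1 q1 a2 (h3 ▸ ha2) (h4 ▸ ha2)
  refine ⟨n + 1, (p2, q2), ⟨k3.trans k4.symm, ?_, fun b hb hA => hn' ?_⟩,
    h1.trans k1, h2.trans k2⟩
  · refine ⟨a1, alt_mono n le_rfl (fun b hb => k1.2 b (h3 ▸ hb)) (fun b hb => k2.2 b (h4 ▸ hb)) hn,
      ⟨a2, ha2, k3.ge, by simp [k5]⟩, a2, ha2, k3.ge, by simp [k6]⟩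
  · have hb' : b ≤ a1 := not_lt.1 fun h => absurd (ha2' b h) (not_le.2 (k3 ▸ hb))
    exact alt_mono (n + 1) hb' (fun c hc => (k1.2 c (h3 ▸ hc.trans hb')).symm)
      (fun c hc => (k2.2 c (h4 ▸ hc.trans hb')).symm) hA

theorem main : ∃ (X : Type) (_ : TopologicalSpace X), T35Space X ∧
      (¬ ∃ F : ℕ → Set X, (∀ n, DiscreteTopology ↥(F n)) ∧ Dense (⋃ n, F n)) ∧
      ∀ D : ℕ → Set (X × X), (∀ n, Dense (D n)) →
        ∃ F : ℕ → Set (X × X), (∀ n, F n ⊆ D n ∧ DiscreteTopology ↥(F n)) ∧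
          Dense (⋃ n, F n) := by
  haveI : Infinite (ℕ → Set L) :=
    Infinite.of_injective (fun (r : ℝ) (_ : ℕ) => ({(r, true)} : Set L)) (fun a b h => by
      simpa using congrFun h 0)
  obtain ⟨W, _, _, _, ub, col, hcol⟩ := colour (ℕ → Set L) (Set L)
    (mk_le_of_injective (f := fun y _ => y) fun a b h => congrFun h 0)
  haveI : NoMaxOrder W := ⟨fun a => (ub fun _ => a).imp fun w hw => hw fun _ => ∅⟩
  exact ⟨Cond col, abstract (Cond col) fan (distrib ub hcol) (AA col) AA_anti AA_dense⟩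

end Pool.Agent.H.MP_4cef1b_gt
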